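import Pool.Agent.Lib.MP_b4205f_al.H76.Ineq

/-!
For every numerator `p` and every `n ≥ 3 exp (p^2 / 16)` the group is not free.
-/

namespace Pool.Agent.Lib.MP_b4205f_al.H76

open Matrix Pool.Agent.Lib.MP_b4205f_al.H22

theorem not_free_large {p n : ℕ} (hp : 0 < p) (hn : 3 * Real.exp ((p : ℝ) ^ 2 / 16) ≤ n) :
    ¬ Function.Injective (phi ((p : ℚ) / n)) := by
  intro hinj
  have hp1 : (1 : ℝ) ≤ p := by exact_mod_cast hp
  have hexp1 : (1 : ℝ) ≤ Real.exp ((p : ℝ) ^ 2 / 16) := Real.one_le_exp (by positivity)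
  have hn3 : (3 : ℝ) ≤ n := by linarith
  have hn3' : 3 ≤ n := by exact_mod_cast hn3
  have hn0 : (n : ℚ) ≠ 0 := by
    have : n ≠ 0 := by omega
    exact_mod_cast this
  set r : ℕ := n ^ 2 with hr
  set s : ℕ := p ^ 2 with hs
  have hr9 : 9 ≤ r := by rw [hr]; nlinarith
  have hmain := main_ineq (al := (p : ℚ) / n) (s := s) (r := r) hinj
    (by rw [hr, hs]; push_cast; field_simp) (by omega) (by positivity) ((r - 1) / 2)
  -- real numbers
  set R : ℝ := (r : ℝ) with hR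
  have hR9 : (9 : ℝ) ≤ R := by rw [hR]; exact_mod_cast hr9
  set S : ℝ := (s : ℝ) with hS
  have hS1 : (0 : ℝ) < S := by rw [hS, hs]; positivity
  have hmainR : 8 * (R - 1) * ((R - 1) * ((harmonic ((r - 1) / 2) : ℚ) : ℝ) -
      2 * (((r - 1) / 2 : ℕ) : ℝ)) ≤ S * R ^ 2 := by
    have := (Rat.cast_le (K := ℝ)).mpr hmain
    push_cast at this
    exact this
  have hk2 : 2 * (((r - 1) / 2 : ℕ) : ℝ) ≤ R - 1 := by
    have h1 : 2 * ((r - 1) / 2) ≤ r - 1 := Nat.mul_div_le _ _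
    have h2 : 2 * ((r - 1) / 2) + 1 ≤ r := by omega
    have h3 : (2 * (((r - 1) / 2 : ℕ) : ℝ) + 1) ≤ R := by rw [hR]; exact_mod_cast h2
    linarith
  have hk3 : R / 2 ≤ (((r - 1) / 2 + 1 : ℕ) : ℝ) := by
    have h2 : r ≤ 2 * ((r - 1) / 2 + 1) := by omega
    have h3 : R ≤ 2 * (((r - 1) / 2 + 1 : ℕ) : ℝ) := by rw [hR]; exact_mod_cast h2
    linarith
  have hH : Real.log (R / 2) ≤ ((harmonic ((r - 1) / 2) : ℚ) : ℝ) :=
    (Real.log_le_log (by linarith) hk3).trans (log_add_one_le_harmonic _)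
  -- lower bound for log (R/2)
  have hRexp : 9 * Real.exp (S / 8) ≤ R := by
    have h1 : (3 * Real.exp ((p : ℝ) ^ 2 / 16)) ^ 2 ≤ (n : ℝ) ^ 2 :=
      pow_le_pow_left₀ (by positivity) hn 2
    have h2 : (3 * Real.exp ((p : ℝ) ^ 2 / 16)) ^ 2 = 9 * Real.exp (S / 8) := by
      rw [mul_pow, ← Real.exp_nat_mul, hS, hs]
      push_cast
      ring_nf
    rw [h2] at h1
    rw [hR, hr]
    push_cast
    exact h1
  have hlog45 : (5 / 4 : ℝ) < Real.log (9 / 2) := by
    rw [Real.lt_log_iff_exp_lt (by norm_num)]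
    have h1 : Real.exp (5 / 4 : ℝ) = Real.exp 1 * Real.exp (1 / 4) := by
      rw [← Real.exp_add]; norm_num
    have h2 := Real.exp_one_lt_d9
    have h3 : Real.exp (1 / 4 : ℝ) ≤ 4 / 3 := by
      have h4 := Real.add_one_le_exp (-(1 / 4) : ℝ)
      have h5 : Real.exp (-(1 / 4) : ℝ) * Real.exp (1 / 4) = 1 := by
        rw [← Real.exp_add]; norm_num
      have h6 := Real.exp_pos (1 / 4 : ℝ)
      nlinarith
    rw [h1]
    have h6 := Real.exp_pos (1 / 4 : ℝ)
    nlinarith [Real.exp_pos (1 : ℝ)]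
  have hlogR : S / 8 + Real.log (9 / 2) ≤ Real.log (R / 2) := by
    have h1 : Real.log (9 / 2 * Real.exp (S / 8)) = Real.log (9 / 2) + S / 8 := by
      rw [Real.log_mul (by norm_num) (Real.exp_pos _).ne', Real.log_exp]
    have h2 : Real.log (9 / 2 * Real.exp (S / 8)) ≤ Real.log (R / 2) :=
      Real.log_le_log (by positivity) (by linarith)
    linarith
  set Lg : ℝ := Real.log (R / 2) with hLg
  -- upper bound for the logarithm
  have hup : Lg ≤ R / 8 + 1 := by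
    have h1 : Real.log (R / 8) ≤ R / 8 - 1 := Real.log_le_sub_one_of_pos (by linarith)
    have h2 : Real.log (R / 2) = Real.log (R / 8) + Real.log 4 := by
      rw [← Real.log_mul (by linarith : R / 8 ≠ 0) (by norm_num)]
      congr 1; ring
    have h3 : Real.log 4 ≤ 2 := by
      have h4 : Real.log 4 = 2 * Real.log 2 := by
        rw [show (4 : ℝ) = 2 ^ 2 by norm_num, Real.log_pow]; norm_num
      have := Real.log_two_lt_d9
      rw [h4]; linarith
    rw [hLg, h2]; linarith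
  set HH : ℝ := ((harmonic ((r - 1) / 2) : ℚ) : ℝ) with hHH
  have h1 : (R - 1) * (Lg - 1) ≤ (R - 1) * HH - 2 * (((r - 1) / 2 : ℕ) : ℝ) := by
    have : (R - 1) * Lg ≤ (R - 1) * HH := mul_le_mul_of_nonneg_left hH (by linarith)
    nlinarith
  have h2 : 8 * (R - 1) * ((R - 1) * (Lg - 1)) ≤ S * R ^ 2 := by
    refine le_trans ?_ hmainR
    apply mul_le_mul_of_nonneg_left h1
    linarith
  -- contradiction
  have h3 : S / 8 + 1 / 4 < Lg - 1 := by linarith
  have h4 : (R ^ 2 - 2 * R) * (Lg - 1) ≤ (R - 1) ^ 2 * (Lg - 1) := by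
    apply mul_le_mul_of_nonneg_right
    · nlinarith
    · nlinarith
  have h5 : 2 * R * (Lg - 1) ≤ R ^ 2 / 4 := by nlinarith
  have h6 : R ^ 2 * (S / 8 + 1 / 4) < R ^ 2 * (Lg - 1) := by
    apply mul_lt_mul_of_pos_left h3
    positivity
  nlinarith

end Pool.Agent.Lib.MP_b4205f_al.H76
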