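import Pool.Agent.Lib.MP_b4205f_al.H76.Key

/-!
The windows and their counting.
-/

namespace Pool.Agent.Lib.MP_b4205f_al.H76

open Matrix Pool.Agent.Lib.MP_b4205f_al.H22

/-- nonzero integers of absolute value at most `U` -/
noncomputable def nz (U : ℕ) : Finset ℤ := (Finset.Icc (-(U : ℤ)) U).filter (fun u => u ≠ 0)

lemma mem_nz {U : ℕ} {u : ℤ} : u ∈ nz U ↔ |u| ≤ U ∧ u ≠ 0 := by
  unfold nz
  rw [Finset.mem_filter, Finset.mem_Icc, abs_le]

lemma sum_abs_nz (U : ℕ) : ∑ u ∈ nz U, |u| = (U : ℤ) * (U + 1) := by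
  induction U with
  | zero => 
    have : nz 0 = ∅ := by
      ext u
      rw [mem_nz]
      simp
    rw [this]; simp
  | succ U ih =>
    have h : nz (U + 1) = insert ((U : ℤ) + 1) (insert (-((U : ℤ) + 1)) (nz U)) := by
      ext u
      rw [Finset.mem_insert, Finset.mem_insert, mem_nz, mem_nz]
      push_cast
      constructor
      · rintro ⟨h1, h2⟩
        rw [abs_le] at h1 ⊢
        omega
      · rintro (h | h | ⟨h1, h2⟩)
        · subst h
          rw [abs_le]; omega
        · subst h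
          rw [abs_le]; omega
        · rw [abs_le] at h1 ⊢
          omega
    rw [h, Finset.sum_insert, Finset.sum_insert, ih]
    · have e1 : |(U : ℤ) + 1| = U + 1 := abs_of_nonneg (by positivity)
      have e2 : |-((U : ℤ) + 1)| = U + 1 := by rw [abs_neg]; exact e1
      rw [e1, e2]; push_cast; ring
    · rw [mem_nz, abs_neg, abs_of_nonneg (by positivity : (0 : ℤ) ≤ (U : ℤ) + 1)]
      omega
    · rw [Finset.mem_insert, mem_nz, abs_of_nonneg (by positivity : (0 : ℤ) ≤ (U : ℤ) + 1)]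
      omega

/-- the window of first coordinates -/
noncomputable def wS (r U : ℕ) : Finset ℤ := nz U ∪ (nz U).image (fun u => (r : ℤ) * u)

/-- the window of second coordinates -/
noncomputable def wV (r U : ℕ) : Finset ℤ :=
  (Finset.Icc (-((r : ℤ) * U)) (r * U)).filter (fun v => 2 * (U : ℤ) < |v| ∧ ¬ (r : ℤ) ∣ v)

lemma mem_wV {r U : ℕ} {v : ℤ} : v ∈ wV r U ↔ |v| ≤ r * U ∧ 2 * (U : ℤ) < |v| ∧ ¬ (r : ℤ) ∣ v := by
  unfold wV
  rw [Finset.mem_filter, Finset.mem_Icc, abs_le]

lemma mem_wS {r U : ℕ} {x : ℤ} : x ∈ wS r U ↔ x ∈ nz U ∨ ∃ u ∈ nz U, (r : ℤ) * u = x := by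
  unfold wS
  rw [Finset.mem_union, Finset.mem_image]

/-- the labels of the window are few -/
lemma card_lamU {s r U : ℕ} (hr : 2 ≤ r) (hs : 0 < s) (V : Finset ℤ) :
    (((wS r U) ×ˢ V).image (lamU s r)).card ≤ s * (U * (U + 1)) := by
  classical
  have hr0 : (r : ℤ) ≠ 0 := by positivity
  have hsub : ((wS r U) ×ˢ V).image (lamU s r) ⊆
      (nz U).biUnion (fun u => ({u} : Finset ℤ) ×ˢ Finset.Ico 0 ((s : ℤ) * |u|)) := by
    intro y hy
    rw [Finset.mem_image] at hy
    obtain ⟨⟨x, v⟩, hq, rfl⟩ := hy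
    rw [Finset.mem_product] at hq
    have hx : x ∈ wS r U := hq.1
    have hred : redU r x ∈ nz U := by
      unfold redU
      rw [mem_wS] at hx
      split_ifs with h
      · obtain ⟨c, hc⟩ := h
        have hdiv : x / r = c := by rw [hc]; exact Int.mul_ediv_cancel_left c hr0
        rw [hdiv]
        rcases hx with hx | ⟨u, hu, hux⟩
        · rw [mem_nz] at hx ⊢
          have hc0 : c ≠ 0 := by
            intro h0
            apply hx.2
            rw [hc, h0, mul_zero]
          refine ⟨?_, hc0⟩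
          have : |x| = r * |c| := by rw [hc, abs_mul, abs_of_nonneg (by positivity : (0 : ℤ) ≤ r)]
          have h3 : |c| ≤ (r : ℤ) * |c| := by
            have : (1 : ℤ) ≤ r := by exact_mod_cast (by omega : 1 ≤ r)
            nlinarith [abs_nonneg c]
          linarith [hx.1]
        · have : c = u := by
            have h4 : (r : ℤ) * u = r * c := by rw [hux, hc]
            exact (mul_left_cancel₀ hr0 h4).symm
          rw [this]; exact hu
      · rcases hx with hx | ⟨u, hu, hux⟩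
        · exact hx
        · exact absurd ⟨u, hux.symm⟩ h
    rw [Finset.mem_biUnion]
    refine ⟨redU r x, hred, ?_⟩
    rw [Finset.mem_product, Finset.mem_singleton, Finset.mem_Ico]
    have hpos : 0 < (s : ℤ) * |redU r x| := by
      rw [mem_nz] at hred
      have := abs_pos.mpr hred.2
      positivity
    refine ⟨rfl, Int.emod_nonneg _ hpos.ne', Int.emod_lt_of_pos _ hpos⟩
  refine (Finset.card_le_card hsub).trans (Finset.card_biUnion_le.trans ?_)
  have h1 : ∀ u ∈ nz U, (({u} : Finset ℤ) ×ˢ Finset.Ico 0 ((s : ℤ) * |u|)).card =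
      (s * u.natAbs) := by
    intro u _
    rw [Finset.card_product, Finset.card_singleton, one_mul, Int.card_Ico, sub_zero,
      Int.abs_eq_natAbs]
    omega
  rw [Finset.sum_congr rfl h1, ← Finset.mul_sum]
  apply Nat.mul_le_mul_left
  have h2 := sum_abs_nz U
  have h3 : ((∑ u ∈ nz U, u.natAbs : ℕ) : ℤ) = ((U * (U + 1) : ℕ) : ℤ) := by
    push_cast
    exact h2
  exact le_of_eq (by exact_mod_cast h3)

/-- index set of the coincidences -/
noncomputable def wJ (r t k0 : ℕ) : Finset (ℤ × ℤ × ℤ) :=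
  ((nz k0) ×ˢ ((wV r (r * t)) ×ˢ ((Finset.Icc (-(t : ℤ) + 1) t).filter (fun j => j ≠ 0)))).filter
    (fun q => |q.1 * q.2.1| ≤ ((r : ℤ) - 1) * (r * t))

/-- the point attached to a coincidence -/
def wf (r : ℕ) (q : ℤ × ℤ × ℤ) : ℤ × ℤ := ((r : ℤ) * ((q.1 * q.2.1) / r + q.2.2), q.2.1)

/-- elementary facts about a coincidence -/
lemma wJ_facts {r t k0 : ℕ} (hr : 2 ≤ r) {q : ℤ × ℤ × ℤ} (hq : q ∈ wJ r t k0) :
    (wf r q).1 ∈ wS r (r * t) ∧ (wf r q).1 - q.1 * q.2.1 ∈ nz (r * t) ∧
      ((r * t : ℕ) : ℤ) < |(wf r q).1| ∧ q.2.1 ∈ wV r (r * t) ∧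
      (wf r q).1 = (r : ℤ) * ((q.1 * q.2.1) / r + q.2.2) := by
  obtain ⟨k, v, j⟩ := q
  unfold wJ at hq
  rw [Finset.mem_filter, Finset.mem_product, Finset.mem_product, Finset.mem_filter,
    Finset.mem_Icc] at hq
  simp only at hq
  obtain ⟨⟨hk, hv, ⟨hj1, hj2⟩, hj0⟩, hkv⟩ := hq
  simp only [wf]
  have hr0 : (0 : ℤ) < r := by exact_mod_cast (by omega : 0 < r)
  set m := (k * v) / (r : ℤ) with hm
  have hm1 : (r : ℤ) * m ≤ k * v := Int.mul_ediv_self_le hr0.ne'
  have hm2 : k * v < (r : ℤ) * m + r := Int.lt_mul_ediv_self_add hr0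
  have hk1 : 1 ≤ |k| := Int.one_le_abs (mem_nz.mp hk).2
  have hv1 := mem_wV.mp hv
  have hkv2 : 2 * (((r * t : ℕ) : ℤ)) < |k * v| := by
    rw [abs_mul]
    nlinarith [abs_nonneg v, hv1.2.1]
  have hU : ((r * t : ℕ) : ℤ) = (r : ℤ) * t := by push_cast; ring
  rw [hU] at hkv2
  have hj3 : (r : ℤ) * j ≤ r * t := by nlinarith
  have hj4 : -((r : ℤ) * t) + r ≤ r * j := by nlinarith
  have hdiff1 : (r : ℤ) * (m + j) - k * v ≤ r * t := by nlinarith
  have hdiff2 : -((r : ℤ) * t) ≤ (r : ℤ) * (m + j) - k * v := by nlinarith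
  have hne : (r : ℤ) * (m + j) - k * v ≠ 0 := by
    intro h
    have h1 : k * v = (r : ℤ) * (m + j) := by linarith
    have h2 : m = m + j := by
      conv_lhs => rw [hm, h1, Int.mul_ediv_cancel_left _ hr0.ne']
    exact hj0 (by linarith)
  have habs : |(r : ℤ) * (m + j) - k * v| ≤ r * t := abs_le.mpr ⟨hdiff2, hdiff1⟩
  have hbig : (r : ℤ) * t < |(r : ℤ) * (m + j)| := by
    have h1 : |k * v| ≤ |(r : ℤ) * (m + j) - k * v| + |(r : ℤ) * (m + j)| := by
      have := abs_sub (r * (m + j) : ℤ) ((r : ℤ) * (m + j) - k * v)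
      have e : (r : ℤ) * (m + j) - ((r : ℤ) * (m + j) - k * v) = k * v := by ring
      rw [e] at this
      linarith
    linarith
  have hup : |(r : ℤ) * (m + j)| ≤ r * (r * t) := by
    have h1 : |(r : ℤ) * (m + j)| ≤ |(r : ℤ) * (m + j) - k * v| + |k * v| := by
      have := abs_add_le ((r : ℤ) * (m + j) - k * v) (k * v)
      have e : (r : ℤ) * (m + j) - k * v + k * v = r * (m + j) := by ring
      rw [e] at this
      exact this
    nlinarith
  refine ⟨?_, ?_, ?_, hv, trivial⟩
  · rw [mem_wS]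
    right
    refine ⟨m + j, ?_, rfl⟩
    rw [mem_nz, hU]
    constructor
    · rw [abs_mul, abs_of_pos hr0] at hup
      exact le_of_mul_le_mul_left hup hr0
    · intro h0
      rw [h0, mul_zero, abs_zero] at hbig
      have : (0 : ℤ) ≤ (r : ℤ) * t := by positivity
      linarith
  · rw [mem_nz, hU]
    exact ⟨habs, hne⟩
  · rw [hU]; exact hbig

lemma wf_inj {r t k0 : ℕ} (hr : 2 ≤ r) : Set.InjOn (wf r) (wJ r t k0 : Set (ℤ × ℤ × ℤ)) := by
  intro q hq q' hq' h
  have f := wJ_facts hr (Finset.mem_coe.mp hq)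
  have f' := wJ_facts hr (Finset.mem_coe.mp hq')
  have h1 : (wf r q).1 = (wf r q').1 := by rw [h]
  have h2 : q.2.1 = q'.2.1 := congrArg Prod.snd h
  have hr0 : (0 : ℤ) < r := by exact_mod_cast (by omega : 0 < r)
  have a := (mem_nz.mp f.2.1).1
  have a' := (mem_nz.mp f'.2.1).1
  have hv := (mem_wV.mp f.2.2.2.1).2.1
  have hkk : q.1 = q'.1 := by
    by_contra hne
    have h3 : 1 ≤ |q.1 - q'.1| := Int.one_le_abs (sub_ne_zero.mpr hne)
    have h4 : |(q.1 - q'.1) * q.2.1| ≤ 2 * ((r * t : ℕ) : ℤ) := by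
      have e : (q.1 - q'.1) * q.2.1 =
          ((wf r q').1 - q'.1 * q'.2.1) - ((wf r q).1 - q.1 * q.2.1) := by
        rw [h1, h2]; ring
      rw [e]
      have := abs_sub ((wf r q').1 - q'.1 * q'.2.1) ((wf r q).1 - q.1 * q.2.1)
      linarith
    rw [abs_mul] at h4
    nlinarith [abs_nonneg q.2.1]
  have hj : q.2.2 = q'.2.2 := by
    have e1 := f.2.2.2.2
    have e2 := f'.2.2.2.2
    rw [h1, e2, hkk, h2] at e1
    have := mul_left_cancel₀ hr0.ne' e1
    linarith
  exact Prod.ext hkk (Prod.ext h2 hj)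

/-- The coincidences are bounded by the number of lower labels. -/
theorem card_wJ_le {al : ℚ} {s r : ℕ} (hinj : Function.Injective (phi al))
    (hal : al * al * r = s) (hr : 2 ≤ r) (hs : 0 < s) (t k0 : ℕ) :
    (wJ r t k0).card ≤ s * ((r * t) * (r * t + 1)) := by
  classical
  set P := (wS r (r * t)) ×ˢ (wV r (r * t)) with hPdef
  have hr0 : (0 : ℤ) < r := by exact_mod_cast (by omega : 0 < r)
  have hkey := key (al := al) (s := (s : ℤ)) (r := (r : ℤ)) hinj (by exact_mod_cast hal)
    (by exact_mod_cast hr) P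
    (by
      rintro ⟨x, v⟩ hq
      rw [hPdef, Finset.mem_product] at hq
      refine ⟨?_, (mem_wV.mp hq.2).2.2⟩
      have hx := mem_wS.mp hq.1
      rcases hx with hx | ⟨u, hu, hux⟩
      · exact (mem_nz.mp hx).2
      · intro h0
        simp only at h0 hux
        rw [h0] at hux
        exact mul_ne_zero hr0.ne' (mem_nz.mp hu).2 hux)
  set B := (wJ r t k0).image (wf r) with hB
  have hBP : B ⊆ P := by
    intro y hy
    rw [hB, Finset.mem_image] at hy
    obtain ⟨q, hq, rfl⟩ := hy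
    have f := wJ_facts hr hq
    rw [hPdef, Finset.mem_product]
    exact ⟨f.1, f.2.2.2.1⟩
  have hBcard : B.card = (wJ r t k0).card := Finset.card_image_of_injOn (wf_inj hr)
  have himg : P.image lamT = (P \ B).image lamT := by
    apply le_antisymm
    · intro y hy
      rw [Finset.mem_image] at hy ⊢
      obtain ⟨p, hp, rfl⟩ := hy
      by_cases hpB : p ∈ B
      · rw [hB, Finset.mem_image] at hpB
        obtain ⟨q, hq, rfl⟩ := hpB
        have f := wJ_facts hr hq
        refine ⟨((wf r q).1 - q.1 * q.2.1, q.2.1), ?_, ?_⟩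
        · rw [Finset.mem_sdiff]
          constructor
          · rw [hPdef, Finset.mem_product]
            exact ⟨mem_wS.mpr (Or.inl f.2.1), f.2.2.2.1⟩
          · intro hmem
            rw [hB, Finset.mem_image] at hmem
            obtain ⟨q', hq', he⟩ := hmem
            have f' := wJ_facts hr hq'
            have h1 : (wf r q').1 = (wf r q).1 - q.1 * q.2.1 := congrArg Prod.fst he
            have h2 := f'.2.2.1
            rw [h1] at h2
            have h3 := (mem_nz.mp f.2.1).1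
            linarith
        · simp only [lamT]
          have h2 : (wf r q).2 = q.2.1 := rfl
          rw [h2]
          congr 1
          rw [Int.sub_mul_emod_self_right]
      · exact ⟨p, Finset.mem_sdiff.mpr ⟨hp, hpB⟩, rfl⟩
    · exact Finset.image_subset_image Finset.sdiff_subset
  have h1 : (P.image lamT).card ≤ P.card - B.card := by
    rw [himg]
    refine Finset.card_image_le.trans (le_of_eq ?_)
    rw [Finset.card_sdiff_of_subset hBP]
  have h2 := card_lamU (s := s) (U := r * t) hr hs (wV r (r * t))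
  have h3 : B.card ≤ P.card := Finset.card_le_card hBP
  rw [← hBcard]
  rw [← hPdef] at h2
  omega

end Pool.Agent.Lib.MP_b4205f_al.H76
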