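import Pool.Agent.Lib.MP_b4205f_al.H22.Criterion

/-!
The counting criterion.  If `U al`, `L al` freely generate a free group, then for every finite
family of distinct nonzero vectors of `ℚ²`, the number of vectors is at most the number of
`U al`-classes plus the number of `L al`-classes.
-/

namespace Pool.Agent.Lib.MP_b4205f_al.H76

open Matrix Pool.Agent.Lib.MP_b4205f_al.H22

abbrev SLQ := SpecialLinearGroup (Fin 2) ℚ

abbrev SLZ := SpecialLinearGroup (Fin 2) ℤ

/-- integral upper unipotent with entry 2 -/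
def U2 : SLZ := ⟨!![1, 2; 0, 1], by simp [det_fin_two]⟩

/-- integral lower unipotent with entry 2 -/
def L2 : SLZ := ⟨!![1, 0; 2, 1], by simp [det_fin_two]⟩

/-- the homomorphism given by the matrices with entry 2 -/
def phi2 : FreeGroup (Fin 2) →* SLZ := FreeGroup.lift ![U2, L2]

lemma phi2_mod (g : FreeGroup (Fin 2)) :
    SpecialLinearGroup.map (Int.castRingHom (ZMod 2)) (phi2 g) = 1 := by
  have h : (SpecialLinearGroup.map (Int.castRingHom (ZMod 2))).comp phi2 = 1 := by
    apply FreeGroup.ext_hom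
    intro i
    fin_cases i
    · apply Subtype.ext
      ext a b
      fin_cases a <;> fin_cases b <;> (simp [phi2, U2]; try rfl)
    · apply Subtype.ext
      ext a b
      fin_cases a <;> fin_cases b <;> (simp [phi2, L2]; try rfl)
  have := congrArg (fun f : FreeGroup (Fin 2) →* SpecialLinearGroup (Fin 2) (ZMod 2) => f g) h
  simpa using this

lemma phi2_entry_mod (g : FreeGroup (Fin 2)) (i j : Fin 2) :
    (((phi2 g : Matrix (Fin 2) (Fin 2) ℤ) i j : ℤ) : ZMod 2) =
      (1 : Matrix (Fin 2) (Fin 2) (ZMod 2)) i j := by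
  have h := congrArg (fun A : SpecialLinearGroup (Fin 2) (ZMod 2) =>
    (A : Matrix (Fin 2) (Fin 2) (ZMod 2)) i j) (phi2_mod g)
  simpa using h

lemma odd_x (g : FreeGroup (Fin 2)) : Odd ((phi2 g : Matrix (Fin 2) (Fin 2) ℤ) 0 0) := by
  have h := phi2_entry_mod g 0 0
  rw [Matrix.one_apply_eq] at h
  rw [← Int.not_even_iff_odd, ← ZMod.intCast_eq_zero_iff_even, h]
  decide

lemma even_y (g : FreeGroup (Fin 2)) : Even ((phi2 g : Matrix (Fin 2) (Fin 2) ℤ) 1 0) := by
  have h := phi2_entry_mod g 1 0
  rw [Matrix.one_apply_ne (by decide)] at h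
  rwa [← ZMod.intCast_eq_zero_iff_even]

/-- the homomorphism in question -/
abbrev phi (al : ℚ) : FreeGroup (Fin 2) →* SLQ := FreeGroup.lift ![U al, L al]

/-- left cosets relation -/
def stp (al : ℚ) : Setoid SLQ where
  r M N := ∃ g, N = phi al g * M
  iseqv :=
    { refl := fun M => ⟨1, by simp⟩
      symm := by
        rintro M N ⟨g, hg⟩
        exact ⟨g⁻¹, by rw [hg, map_inv, inv_mul_cancel_left]⟩
      trans := by
        rintro M N P ⟨g, hg⟩ ⟨h, hh⟩
        exact ⟨h * g, by rw [hh, hg, map_mul, mul_assoc]⟩ }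

/-- representative -/
noncomputable def rep (al : ℚ) (M : SLQ) : SLQ := Quotient.out (Quotient.mk (stp al) M)

lemma exists_word (al : ℚ) (M : SLQ) : ∃ g, M = phi al g * rep al M := by
  have h : (stp al).r (rep al M) M := Quotient.exact (Quotient.out_eq (Quotient.mk (stp al) M))
  exact h

/-- word of a matrix relative to the representative of its coset -/
noncomputable def word (al : ℚ) (M : SLQ) : FreeGroup (Fin 2) := (exists_word al M).choose

lemma word_spec (al : ℚ) (M : SLQ) : M = phi al (word al M) * rep al M :=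
  (exists_word al M).choose_spec

lemma rep_mul (al : ℚ) (g : FreeGroup (Fin 2)) (M : SLQ) :
    rep al (phi al g * M) = rep al M := by
  unfold rep
  have h : Quotient.mk (stp al) (phi al g * M) = Quotient.mk (stp al) M := by
    apply Quotient.sound
    exact (stp al).symm ⟨g, rfl⟩
  rw [h]

lemma word_mul {al : ℚ} (hinj : Function.Injective (phi al)) (g : FreeGroup (Fin 2)) (M : SLQ) :
    word al (phi al g * M) = g * word al M := by
  apply hinj
  have h1 := word_spec al (phi al g * M)
  have h2 := word_spec al M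
  rw [rep_mul] at h1
  rw [map_mul]
  have h3 : phi al g * (phi al (word al M) * rep al M) =
      phi al (word al (phi al g * M)) * rep al M := by
    rw [← h2]; exact h1
  rw [← mul_assoc] at h3
  exact (mul_right_cancel h3).symm

/-- first coordinate -/
noncomputable def X (al : ℚ) (M : SLQ) : ℤ :=
  (phi2 (word al M) : Matrix (Fin 2) (Fin 2) ℤ) 0 0

/-- second coordinate -/
noncomputable def Y (al : ℚ) (M : SLQ) : ℤ :=
  (phi2 (word al M) : Matrix (Fin 2) (Fin 2) ℤ) 1 0

lemma X_odd (al : ℚ) (M : SLQ) : Odd (X al M) := odd_x _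

lemma Y_even (al : ℚ) (M : SLQ) : Even (Y al M) := even_y _

lemma step_U {al : ℚ} (hinj : Function.Injective (phi al)) (M : SLQ) :
    X al (U al * M) = X al M + 2 * Y al M ∧ Y al (U al * M) = Y al M := by
  have h : U al * M = phi al (FreeGroup.of 0) * M := by simp [phi]
  unfold X Y
  rw [h, word_mul hinj, map_mul]
  have h2 : phi2 (FreeGroup.of 0) = U2 := by simp [phi2]
  rw [h2]
  constructor
  · simp [U2, Matrix.mul_apply, Fin.sum_univ_two]
  · simp [U2, Matrix.mul_apply, Fin.sum_univ_two]

lemma step_L {al : ℚ} (hinj : Function.Injective (phi al)) (M : SLQ) :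
    X al (L al * M) = X al M ∧ Y al (L al * M) = Y al M + 2 * X al M := by
  have h : L al * M = phi al (FreeGroup.of 1) * M := by simp [phi]
  unfold X Y
  rw [h, word_mul hinj, map_mul]
  have h2 : phi2 (FreeGroup.of 1) = L2 := by simp [phi2]
  rw [h2]
  constructor
  · simp [L2, Matrix.mul_apply, Fin.sum_univ_two]
  · simp [L2, Matrix.mul_apply, Fin.sum_univ_two, add_comm]

lemma pow_U {al : ℚ} (hinj : Function.Injective (phi al)) (n : ℤ) (M : SLQ) :
    X al (U al ^ n * M) = X al M + 2 * n * Y al M ∧ Y al (U al ^ n * M) = Y al M := by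
  induction n using Int.induction_on with
  | zero => simp
  | succ k ih =>
    have h : U al ^ ((k : ℤ) + 1) * M = U al * (U al ^ (k : ℤ) * M) := by
      rw [← mul_assoc, ← _root_.zpow_one_add, add_comm]
    obtain ⟨h1, h2⟩ := step_U hinj (U al ^ (k : ℤ) * M)
    rw [h, h1, h2, ih.1, ih.2]
    constructor
    · ring
    · rfl
  | pred k ih =>
    have h : U al ^ (-(k : ℤ)) * M = U al * (U al ^ (-(k : ℤ) - 1) * M) := by
      rw [← mul_assoc, ← _root_.zpow_one_add]; congr 2; ring
    obtain ⟨h1, h2⟩ := step_U hinj (U al ^ (-(k : ℤ) - 1) * M)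
    rw [← h] at h1 h2
    rw [ih.1] at h1
    rw [ih.2] at h2
    rw [← h2] at h1
    constructor
    · linear_combination -h1
    · exact h2.symm

lemma pow_L {al : ℚ} (hinj : Function.Injective (phi al)) (n : ℤ) (M : SLQ) :
    X al (L al ^ n * M) = X al M ∧ Y al (L al ^ n * M) = Y al M + 2 * n * X al M := by
  induction n using Int.induction_on with
  | zero => simp
  | succ k ih =>
    have h : L al ^ ((k : ℤ) + 1) * M = L al * (L al ^ (k : ℤ) * M) := by
      rw [← mul_assoc, ← _root_.zpow_one_add, add_comm]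
    obtain ⟨h1, h2⟩ := step_L hinj (L al ^ (k : ℤ) * M)
    rw [h, h1, h2, ih.1, ih.2]
    constructor
    · rfl
    · ring
  | pred k ih =>
    have h : L al ^ (-(k : ℤ)) * M = L al * (L al ^ (-(k : ℤ) - 1) * M) := by
      rw [← mul_assoc, ← _root_.zpow_one_add]; congr 2; ring
    obtain ⟨h1, h2⟩ := step_L hinj (L al ^ (-(k : ℤ) - 1) * M)
    rw [← h] at h1 h2
    rw [ih.1] at h1
    rw [ih.2] at h2
    rw [← h1] at h2
    constructor
    · exact h1.symm
    · linear_combination -h2

lemma own_U {al : ℚ} (hinj : Function.Injective (phi al)) (n : ℤ) (M : SLQ)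
    (h1 : |X al M| < |Y al M|)
    (h2 : |X al (U al ^ n * M)| < |Y al (U al ^ n * M)|) : n = 0 := by
  obtain ⟨e1, e2⟩ := pow_U hinj n M
  rw [e1, e2] at h2
  by_contra hn
  have h3 : |2 * n * Y al M| < 2 * |Y al M| := by
    calc |2 * n * Y al M| = |(X al M + 2 * n * Y al M) - X al M| := by ring_nf
      _ ≤ |X al M + 2 * n * Y al M| + |X al M| := abs_sub _ _
      _ < 2 * |Y al M| := by linarith
  rw [abs_mul, abs_mul] at h3
  have h4 : 1 ≤ |n| := Int.one_le_abs hn
  have h5 : (0 : ℤ) < |Y al M| := lt_of_le_of_lt (abs_nonneg _) h1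
  have h6 : |(2 : ℤ)| = 2 := by norm_num
  rw [h6] at h3
  nlinarith

lemma own_L {al : ℚ} (hinj : Function.Injective (phi al)) (n : ℤ) (M : SLQ)
    (h1 : ¬ |X al M| < |Y al M|)
    (h2 : ¬ |X al (L al ^ n * M)| < |Y al (L al ^ n * M)|) : n = 0 := by
  have key : ∀ N : SLQ, ¬ |X al N| < |Y al N| → |Y al N| < |X al N| := by
    intro N hN
    rcases lt_or_eq_of_le (not_lt.mp hN) with h | h
    · exact h
    · exfalso
      have o := X_odd al N
      have e := Y_even al N
      rw [← Int.natAbs_odd] at o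
      rw [← Int.natAbs_even] at e
      have : (Y al N).natAbs = (X al N).natAbs := by
        have h' := h
        rw [Int.abs_eq_natAbs, Int.abs_eq_natAbs] at h'
        exact_mod_cast h'
      rw [this] at e
      exact (Nat.not_even_iff_odd.mpr o) e
  replace h1 := key _ h1
  replace h2 := key _ h2
  obtain ⟨e1, e2⟩ := pow_L hinj n M
  rw [e1, e2] at h2
  by_contra hn
  have h3 : |2 * n * X al M| < 2 * |X al M| := by
    calc |2 * n * X al M| = |(Y al M + 2 * n * X al M) - Y al M| := by ring_nf
      _ ≤ |Y al M + 2 * n * X al M| + |Y al M| := abs_sub _ _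
      _ < 2 * |X al M| := by linarith
  rw [abs_mul, abs_mul] at h3
  have h4 : 1 ≤ |n| := Int.one_le_abs hn
  have h5 : (0 : ℤ) < |X al M| := lt_of_le_of_lt (abs_nonneg _) h1
  have h6 : |(2 : ℤ)| = 2 := by norm_num
  rw [h6] at h3
  nlinarith

/-- The counting inequality for matrices. -/
theorem card_le_matrices {al : ℚ} (hinj : Function.Injective (phi al))
    {ι α β : Type*} [Fintype ι] [Fintype α] [Fintype β]
    (m : ι → SLQ) (hm : Function.Injective m) (lT : ι → α) (lU : ι → β)
    (hT : ∀ i j, lT i = lT j → ∃ n : ℤ, m j = U al ^ n * m i)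
    (hU : ∀ i j, lU i = lU j → ∃ n : ℤ, m j = L al ^ n * m i) :
    Fintype.card ι ≤ Fintype.card α + Fintype.card β := by
  classical
  rw [← Fintype.card_sum]
  apply Fintype.card_le_of_injective
    (fun i => if |X al (m i)| < |Y al (m i)| then Sum.inl (lT i) else Sum.inr (lU i))
  intro i j hij
  simp only at hij
  apply hm
  split_ifs at hij with h1 h2 h2
  · obtain ⟨n, hn⟩ := hT i j (Sum.inl.inj hij)
    rw [hn] at h2
    have := own_U hinj n _ h1 h2
    rw [hn, this]; simp
  · obtain ⟨n, hn⟩ := hU i j (Sum.inr.inj hij)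
    rw [hn] at h2
    have := own_L hinj n _ h1 h2
    rw [hn, this]; simp

end Pool.Agent.Lib.MP_b4205f_al.H76
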