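import Pool.Agent.Lib.MP_b4205f_al.H76.Count

/-!
Lower bound for the number of coincidences and the resulting inequality: if `p/n` is free, then
`8 (r-1) ((r-1) H_k - 2 k) <= s r^2` for all `k`, where `r = n^2`, `s = p^2`.
-/

namespace Pool.Agent.Lib.MP_b4205f_al.H76

open Matrix Pool.Agent.Lib.MP_b4205f_al.H22

/-- second coordinates admissible for the multiplier `k` -/
noncomputable def wA (r t k : ℕ) : Finset ℤ :=
  (wV r (r * t)).filter (fun v => (k : ℤ) * |v| ≤ ((r : ℤ) - 1) * (r * t))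

lemma card_wA {r t k : ℕ} (hr : 2 ≤ r) (hk : 1 ≤ k) (hkt : k ∣ t) :
    2 * (((r - 1) * (t / k) - 2 * t) * (r - 1)) ≤ (wA r t k).card := by
  classical
  obtain ⟨c, hc⟩ := hkt
  have hdiv : t / k = c := by rw [hc]; exact Nat.mul_div_cancel_left c (by omega)
  rw [hdiv]
  set M := (r - 1) * c with hM
  set D := (Finset.Ico (2 * t) M) ×ˢ (Finset.Icc 1 (r - 1)) with hD
  have hDcard : D.card = (M - 2 * t) * (r - 1) := by
    rw [hD, Finset.card_product, Nat.card_Ico, Nat.card_Icc]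
    congr 1
  let f : ℕ × ℕ → ℤ := fun q => (r : ℤ) * q.1 + q.2
  have hf : Set.InjOn f (D : Set (ℕ × ℕ)) := by
    rintro ⟨w, i⟩ hq ⟨w', i'⟩ hq' h
    rw [Finset.mem_coe, hD, Finset.mem_product, Finset.mem_Ico, Finset.mem_Icc] at hq hq'
    simp only [f] at h
    simp only at hq hq'
    have h1 : r * w + i = r * w' + i' := by exact_mod_cast h
    have hi : i < r := by omega
    have hi' : i' < r := by omega
    have hw : w = w' := by
      have a : (r * w + i) / r = w := by
        rw [Nat.mul_add_div (by omega), Nat.div_eq_of_lt hi, add_zero]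
      have b : (r * w' + i') / r = w' := by
        rw [Nat.mul_add_div (by omega), Nat.div_eq_of_lt hi', add_zero]
      rw [← a, ← b, h1]
    subst hw
    have : i = i' := by omega
    rw [this]
  have hfacts : ∀ q ∈ D, 0 < f q ∧ f q ∈ wA r t k ∧ -(f q) ∈ wA r t k := by
    rintro ⟨w, i⟩ hq
    rw [hD, Finset.mem_product, Finset.mem_Ico, Finset.mem_Icc] at hq
    simp only at hq
    obtain ⟨⟨hw1, hw2⟩, hi1, hi2⟩ := hq
    have hpos : 0 < f (w, i) := by
      simp only [f]
      have : (0 : ℤ) < (i : ℤ) := by exact_mod_cast hi1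
      positivity
    have hle : (k : ℤ) * f (w, i) ≤ ((r : ℤ) - 1) * (r * t) := by
      have h1 : r * w + i ≤ r * M := by
        have : w + 1 ≤ M := hw2
        calc r * w + i ≤ r * w + r := by omega
          _ = r * (w + 1) := by ring
          _ ≤ r * M := Nat.mul_le_mul_left _ this
      have h2 : ((r : ℤ) * w + i) ≤ r * M := by exact_mod_cast h1
      have h3 : (M : ℤ) = ((r : ℤ) - 1) * c := by
        rw [hM]; push_cast [Nat.cast_sub (by omega : 1 ≤ r)]; ring
      have h4 : (t : ℤ) = k * c := by rw [hc]; push_cast; ring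
      simp only [f]
      calc (k : ℤ) * ((r : ℤ) * w + i) ≤ k * (r * M) := by
            apply mul_le_mul_of_nonneg_left h2; positivity
        _ = ((r : ℤ) - 1) * (r * t) := by rw [h3, h4]; ring
    have hle2 : f (w, i) ≤ (r : ℤ) * ((r * t : ℕ) : ℤ) := by
      have h5 : f (w, i) ≤ (k : ℤ) * f (w, i) := by
        have : (1 : ℤ) ≤ k := by exact_mod_cast hk
        nlinarith
      have h6 : ((r : ℤ) - 1) * (r * t) ≤ r * ((r * t : ℕ) : ℤ) := by
        push_cast
        have : (0 : ℤ) ≤ (r : ℤ) * t := by positivity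
        nlinarith
      linarith
    have hgt : 2 * ((r * t : ℕ) : ℤ) < f (w, i) := by
      simp only [f]
      have h1 : r * (2 * t) + 1 ≤ r * w + i := by
        have : r * (2 * t) ≤ r * w := Nat.mul_le_mul_left _ hw1
        omega
      have h2 : ((r : ℤ) * (2 * t) + 1) ≤ r * w + i := by exact_mod_cast h1
      push_cast
      linarith
    have hnd : ¬ (r : ℤ) ∣ f (w, i) := by
      intro hdvd
      simp only [f] at hdvd
      have h1 : (r : ℤ) ∣ i := (Int.dvd_add_right (Dvd.intro _ rfl)).mp hdvd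
      have h2 : r ∣ i := by exact_mod_cast h1
      have := Nat.le_of_dvd (by omega) h2
      omega
    refine ⟨hpos, ?_, ?_⟩
    · unfold wA
      rw [Finset.mem_filter, mem_wV, abs_of_pos hpos]
      exact ⟨⟨hle2, hgt, hnd⟩, hle⟩
    · unfold wA
      rw [Finset.mem_filter, mem_wV, abs_neg, abs_of_pos hpos]
      exact ⟨⟨hle2, hgt, fun h => hnd ((dvd_neg).mp h)⟩, hle⟩
  have hsub : D.image f ∪ D.image (fun q => -(f q)) ⊆ wA r t k := by
    intro y hy
    rw [Finset.mem_union, Finset.mem_image, Finset.mem_image] at hy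
    rcases hy with ⟨q, hq, rfl⟩ | ⟨q, hq, rfl⟩
    · exact (hfacts q hq).2.1
    · exact (hfacts q hq).2.2
  have hdisj : Disjoint (D.image f) (D.image (fun q => -(f q))) := by
    rw [Finset.disjoint_left]
    intro y hy hy'
    rw [Finset.mem_image] at hy hy'
    obtain ⟨q, hq, rfl⟩ := hy
    obtain ⟨q', hq', h⟩ := hy'
    have a := (hfacts q hq).1
    have b := (hfacts q' hq').1
    linarith
  have h1 := Finset.card_le_card hsub
  rw [Finset.card_union_of_disjoint hdisj, Finset.card_image_of_injOn hf,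
    Finset.card_image_of_injOn (fun a ha b hb hab => hf ha hb (neg_injective hab)), hDcard] at h1
  linarith

lemma card_jset {t : ℕ} (ht : 1 ≤ t) :
    2 * t - 1 ≤ ((Finset.Icc (-(t : ℤ) + 1) t).filter (fun j => j ≠ 0)).card := by
  have h : (Finset.Icc (-(t : ℤ) + 1) t).filter (fun j => j ≠ 0) =
      (Finset.Icc (-(t : ℤ) + 1) t).erase 0 := by
    ext j
    rw [Finset.mem_filter, Finset.mem_erase, and_comm]
  rw [h, Finset.card_erase_of_mem, Int.card_Icc]
  · omega
  · rw [Finset.mem_Icc]; omega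

lemma card_wJ_ge {r t k0 : ℕ} (hr : 2 ≤ r) (ht : 1 ≤ t) (hk0 : ∀ k ∈ Finset.Icc 1 k0, k ∣ t) :
    (2 * t - 1) * (∑ k ∈ Finset.Icc 1 k0, 4 * (((r - 1) * (t / k) - 2 * t) * (r - 1))) ≤
      (wJ r t k0).card := by
  classical
  set E := (Finset.Icc 1 k0).biUnion
    (fun k : ℕ => (({(k : ℤ), -(k : ℤ)} : Finset ℤ) ×ˢ wA r t k)) with hE
  have hEcard : ∑ k ∈ Finset.Icc 1 k0, 4 * (((r - 1) * (t / k) - 2 * t) * (r - 1)) ≤ E.card := by
    rw [hE, Finset.card_biUnion]
    · apply Finset.sum_le_sum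
      intro k hk
      have hk1 := (Finset.mem_Icc.mp hk).1
      rw [Finset.card_product, Finset.card_pair (by
        intro h
        have : (0 : ℤ) < k := by exact_mod_cast hk1
        linarith)]
      have := card_wA (r := r) (t := t) hr hk1 (hk0 k hk)
      linarith
    · intro k hk k' hk' hne
      rw [Function.onFun, Finset.disjoint_left]
      rintro ⟨a, v⟩ ha ha'
      rw [Finset.mem_product, Finset.mem_insert, Finset.mem_singleton] at ha ha'
      have hk1 : 1 ≤ k := (Finset.mem_Icc.mp (Finset.mem_coe.mp hk)).1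
      have hk1' : 1 ≤ k' := (Finset.mem_Icc.mp (Finset.mem_coe.mp hk')).1
      simp only at ha ha'
      omega
  set Js := (Finset.Icc (-(t : ℤ) + 1) t).filter (fun j => j ≠ 0) with hJs
  have hsub : (E ×ˢ Js).image (fun q : (ℤ × ℤ) × ℤ => (q.1.1, q.1.2, q.2)) ⊆ wJ r t k0 := by
    intro y hy
    rw [Finset.mem_image] at hy
    obtain ⟨⟨⟨a, v⟩, j⟩, hq, rfl⟩ := hy
    rw [Finset.mem_product] at hq
    obtain ⟨hq1, hq2⟩ := hq
    simp only at hq1 hq2
    rw [hE, Finset.mem_biUnion] at hq1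
    obtain ⟨k, hk, hq1⟩ := hq1
    rw [Finset.mem_product, Finset.mem_insert, Finset.mem_singleton] at hq1
    simp only at hq1
    obtain ⟨ha, hv⟩ := hq1
    unfold wA at hv
    rw [Finset.mem_filter] at hv
    have hk2 := Finset.mem_Icc.mp hk
    have habs : |a| = k := by
      rcases ha with h | h
      · rw [h, abs_of_nonneg (by positivity)]
      · rw [h, abs_neg, abs_of_nonneg (by positivity)]
    unfold wJ
    rw [Finset.mem_filter, Finset.mem_product, Finset.mem_product]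
    refine ⟨⟨?_, hv.1, hq2⟩, ?_⟩
    · simp only
      rw [mem_nz, habs]
      refine ⟨by exact_mod_cast hk2.2, ?_⟩
      intro h0
      rw [h0, abs_zero] at habs
      have : (k : ℤ) ≠ 0 := by exact_mod_cast (by omega : k ≠ 0)
      exact this habs.symm
    · simp only
      rw [abs_mul, habs]
      exact hv.2
  have h1 := Finset.card_le_card hsub
  rw [Finset.card_image_of_injective _ (by
    rintro ⟨⟨a, v⟩, j⟩ ⟨⟨a', v'⟩, j'⟩ h
    simp only [Prod.mk.injEq] at h
    obtain ⟨h1, h2, h3⟩ := h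
    rw [h1, h2, h3]), Finset.card_product] at h1
  refine le_trans ?_ h1
  rw [mul_comm]
  exact Nat.mul_le_mul hEcard (card_jset ht)

/-- The main inequality. -/
theorem main_ineq {al : ℚ} {s r : ℕ} (hinj : Function.Injective (phi al))
    (hal : al * al * r = s) (hr : 2 ≤ r) (hs : 0 < s) (k0 : ℕ) :
    8 * ((r : ℚ) - 1) * (((r : ℚ) - 1) * harmonic k0 - 2 * k0) ≤ s * (r : ℚ) ^ 2 := by
  set X : ℚ := ((r : ℚ) - 1) * harmonic k0 - 2 * k0 with hX
  have hrq : (2 : ℚ) ≤ r := by exact_mod_cast hr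
  -- inequality for every admissible t
  have step : ∀ t : ℕ, 1 ≤ t → (∀ k ∈ Finset.Icc 1 k0, k ∣ t) →
      (2 * (t : ℚ) - 1) * (4 * ((r : ℚ) - 1) * X) ≤ s * (r * (r * t + 1)) := by
    intro t ht hk
    have h1 := (card_wJ_ge (r := r) hr ht hk).trans (card_wJ_le hinj hal hr hs t k0)
    have h2 : ((2 * t - 1 : ℕ) : ℚ) *
        (∑ k ∈ Finset.Icc 1 k0, 4 * ((((r - 1) * (t / k) - 2 * t : ℕ) : ℚ) * ((r - 1 : ℕ) : ℚ))) ≤
        s * ((r * t) * (r * t + 1)) := by exact_mod_cast h1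
    have ht1 : ((2 * t - 1 : ℕ) : ℚ) = 2 * (t : ℚ) - 1 := by
      rw [Nat.cast_sub (by omega)]; push_cast; ring
    have hr1 : ((r - 1 : ℕ) : ℚ) = (r : ℚ) - 1 := by
      rw [Nat.cast_sub (by omega)]; push_cast; ring
    have htq : (1 : ℚ) ≤ t := by exact_mod_cast ht
    have h3 : (t : ℚ) * (4 * ((r : ℚ) - 1) * X) ≤
        ∑ k ∈ Finset.Icc 1 k0, 4 * ((((r - 1) * (t / k) - 2 * t : ℕ) : ℚ) * ((r - 1 : ℕ) : ℚ)) := by
      have h4 : (t : ℚ) * (4 * ((r : ℚ) - 1) * X) =
          ∑ k ∈ Finset.Icc 1 k0, 4 * ((((r : ℚ) - 1) * (t / k) - 2 * t) * ((r : ℚ) - 1)) := by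
        rw [hX, harmonic_eq_sum_Icc]
        have e : ∀ k ∈ Finset.Icc 1 k0, 4 * ((((r : ℚ) - 1) * ((t : ℚ) / k) - 2 * t) * ((r : ℚ) - 1)) =
            4 * ((r : ℚ) - 1) * t * (((r : ℚ) - 1) * ((k : ℕ) : ℚ)⁻¹ - 2) := by
          intro k _
          rw [div_eq_mul_inv]; ring
        rw [Finset.sum_congr rfl e, ← Finset.mul_sum, Finset.sum_sub_distrib, ← Finset.mul_sum]
        simp only [Finset.sum_const, Nat.card_Icc, nsmul_eq_mul]
        push_cast
        ring
      rw [h4]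
      apply Finset.sum_le_sum
      intro k hk'
      have hk1 := (Finset.mem_Icc.mp hk').1
      have hdiv : ((t / k : ℕ) : ℚ) = (t : ℚ) / k := by
        rw [Nat.cast_div (hk k hk')]
        exact_mod_cast (by omega : k ≠ 0)
      rw [hr1]
      have h5 : (((r : ℚ) - 1) * ((t : ℚ) / k) - 2 * t) ≤
          (((r - 1) * (t / k) - 2 * t : ℕ) : ℚ) := by
        have h6 : (((r - 1) * (t / k) : ℕ) : ℚ) ≤
            (((r - 1) * (t / k) - 2 * t : ℕ) : ℚ) + ((2 * t : ℕ) : ℚ) := by
          exact_mod_cast (by omega : (r - 1) * (t / k) ≤ (r - 1) * (t / k) - 2 * t + 2 * t)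
        have e7 : (((r - 1) * (t / k) : ℕ) : ℚ) = ((r : ℚ) - 1) * ((t : ℚ) / k) := by
          rw [Nat.cast_mul, hr1, hdiv]
        have e8 : ((2 * t : ℕ) : ℚ) = 2 * (t : ℚ) := by push_cast; ring
        rw [e7, e8] at h6
        linarith
      have h9 : (0 : ℚ) ≤ (r : ℚ) - 1 := by linarith
      nlinarith
    rw [ht1] at h2
    have h10 : (2 * (t : ℚ) - 1) * ((t : ℚ) * (4 * ((r : ℚ) - 1) * X)) ≤
        s * ((r * t) * (r * t + 1)) := by
      refine le_trans ?_ h2
      apply mul_le_mul_of_nonneg_left h3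
      linarith
    have h11 : (t : ℚ) * ((2 * (t : ℚ) - 1) * (4 * ((r : ℚ) - 1) * X)) ≤
        (t : ℚ) * (s * (r * (r * t + 1))) := by
      calc (t : ℚ) * ((2 * (t : ℚ) - 1) * (4 * ((r : ℚ) - 1) * X)) =
          (2 * (t : ℚ) - 1) * ((t : ℚ) * (4 * ((r : ℚ) - 1) * X)) := by ring
        _ ≤ _ := h10
        _ = _ := by ring
    exact le_of_mul_le_mul_left h11 (by linarith)
  by_contra hcon
  push Not at hcon
  set δ : ℚ := 8 * ((r : ℚ) - 1) * X - s * (r : ℚ) ^ 2 with hδ
  have hδ0 : 0 < δ := by rw [hδ]; linarith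
  obtain ⟨m, hm⟩ := exists_nat_gt ((s * r + 4 * ((r : ℚ) - 1) * X) / δ)
  have hfac : ∀ k ∈ Finset.Icc 1 k0, k ∣ (Nat.factorial k0) * (m + 1) := by
    intro k hk
    have := Finset.mem_Icc.mp hk
    exact Dvd.dvd.mul_right (Nat.dvd_factorial (by omega) this.2) _
  have h := step (Nat.factorial k0 * (m + 1))
    (Nat.mul_pos (Nat.factorial_pos _) (Nat.succ_pos _)) hfac
  set t : ℚ := ((Nat.factorial k0 * (m + 1) : ℕ) : ℚ) with htdef
  have htm : (m : ℚ) ≤ t := by
    rw [htdef]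
    have : m ≤ Nat.factorial k0 * (m + 1) := by
      have := Nat.factorial_pos k0
      nlinarith
    exact_mod_cast this
  have h5 : (s * r + 4 * ((r : ℚ) - 1) * X) / δ < t := lt_of_lt_of_le hm htm
  rw [div_lt_iff₀ hδ0] at h5
  rw [hδ] at h5
  nlinarith

end Pool.Agent.Lib.MP_b4205f_al.H76
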