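import Pool.Agent.Lib.MP_b4205f_al.H76.Lift

/-!
The integer form of the counting criterion.  Put `r = n^2`, `s = p^2`.  A pair `(x, v)` of integers
has the upper label `(v, x mod v)` and the lower label `(u, w mod s|u|)`, where `(u, w) = (x / r, v)`
if `r ∣ x` and `(u, w) = (x, r v)` otherwise.  If `p/n` is free, then every finite set of pairs
with `x ≠ 0`, `r ∤ v` has at most as many elements as it has labels.
-/

namespace Pool.Agent.Lib.MP_b4205f_al.H76

open Matrix Pool.Agent.Lib.MP_b4205f_al.H22

/-- upper label -/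
def lamT (q : ℤ × ℤ) : ℤ × ℤ := (q.2, q.1 % q.2)

/-- the reduced first coordinate -/
def redU (r : ℤ) (x : ℤ) : ℤ := if r ∣ x then x / r else x

/-- the scaled second coordinate -/
def redW (r : ℤ) (x v : ℤ) : ℤ := if r ∣ x then v else r * v

/-- the level shift -/
def redE (r : ℤ) (x : ℤ) : ℕ := if r ∣ x then 0 else 1

/-- lower label -/
def lamU (s r : ℤ) (q : ℤ × ℤ) : ℤ × ℤ :=
  (redU r q.1, redW r q.1 q.2 % (s * |redU r q.1|))

/-- the vector at level `k` -/
noncomputable def vec (al : ℚ) (r : ℤ) (q : ℤ × ℤ) (k : ℕ) : ℚ × ℚ :=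
  (al * q.1 / (r : ℚ) ^ k, (q.2 : ℚ) / (r : ℚ) ^ k)

lemma vec_eq (al : ℚ) {r : ℤ} (hr : r ≠ 0) (q : ℤ × ℤ) (k : ℕ) :
    vec al r q k = (al * redU r q.1 * r / (r : ℚ) ^ (k + redE r q.1),
      (redW r q.1 q.2 : ℚ) / (r : ℚ) ^ (k + redE r q.1)) := by
  have hr' : (r : ℚ) ≠ 0 := by exact_mod_cast hr
  unfold vec redU redW redE
  split_ifs with h
  · obtain ⟨c, hc⟩ := h
    have : q.1 / r = c := by rw [hc]; exact Int.mul_ediv_cancel_left c hr
    rw [this, hc]
    simp only [add_zero]
    push_cast
    congr 1
    ring
  · rw [pow_succ]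
    push_cast
    congr 1
    · field_simp
    · field_simp

/-- The integer form of the criterion. -/
theorem key {al : ℚ} {s r : ℤ} (hinj : Function.Injective (phi al)) (hal : al * al * r = s)
    (hr : 2 ≤ r) (P : Finset (ℤ × ℤ)) (hP : ∀ q ∈ P, q.1 ≠ 0 ∧ ¬ r ∣ q.2) :
    P.card ≤ (P.image lamT).card + (P.image (lamU s r)).card := by
  classical
  have hr0 : r ≠ 0 := by omega
  have hrq : (r : ℚ) ≠ 0 := by exact_mod_cast hr0
  have hal0 : al ≠ 0 ∨ s = 0 := by
    by_cases h : al = 0
    · right
      rw [h] at hal
      have : (s : ℚ) = 0 := by rw [← hal]; ring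
      exact_mod_cast this
    · left; exact h
  have main : ∀ K : ℕ, P.card * K ≤
      (P.image lamT).card * K + (P.image (lamU s r)).card * (K + 1) := by
    intro K
    have := card_le_vectors hinj (ι := P × Fin K) (α := (P.image lamT) × Fin K)
      (β := (P.image (lamU s r)) × Fin (K + 1))
      (fun p => vec al r p.1.1 p.2)
      (by
        rintro ⟨⟨q, hq⟩, k⟩ ⟨⟨q', hq'⟩, k'⟩ h
        simp only [vec, Prod.mk.injEq] at h
        obtain ⟨h1, h2⟩ := h
        -- levels agree
        have lev : ∀ (a b : ℤ × ℤ) (i j : ℕ), ¬ r ∣ b.2 →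
            (a.2 : ℚ) / (r : ℚ) ^ i = (b.2 : ℚ) / (r : ℚ) ^ j → j ≤ i := by
          intro a b i j hb hab
          by_contra hij
          push Not at hij
          apply hb
          obtain ⟨d, rfl⟩ := Nat.exists_eq_add_of_lt hij
          rw [div_eq_div_iff (pow_ne_zero _ hrq) (pow_ne_zero _ hrq)] at hab
          have e : (b.2 : ℚ) = a.2 * (r : ℚ) ^ (d + 1) := by
            have hpow : (r : ℚ) ^ (i + d + 1) = (r : ℚ) ^ (d + 1) * (r : ℚ) ^ i := by
              rw [← pow_add]; congr 1; omega
            rw [hpow, ← mul_assoc] at hab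
            exact (mul_right_cancel₀ (pow_ne_zero _ hrq) hab).symm
          have e' : b.2 = a.2 * r ^ (d + 1) := by exact_mod_cast e
          rw [e', pow_succ]
          exact Dvd.intro_left (a.2 * r ^ d) (by ring)
        have hk : (k : ℕ) = k' := le_antisymm
          (lev q' q k' k (hP q hq).2 h2.symm) (lev q q' k k' (hP q' hq').2 h2)
        rw [hk] at h1 h2
        have e2 : (q.2 : ℚ) = q'.2 := by
          field_simp at h2
          exact h2
        have e2' : q.2 = q'.2 := by exact_mod_cast e2
        have e1 : (q.1 : ℚ) = q'.1 := by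
          rcases hal0 with hal0 | hs
          · field_simp at h1
            exact h1
          · exfalso
            -- al = 0 is impossible since then `U 0 = 1`
            have hz : al = 0 := by
              rw [hs] at hal
              have h3 : al * al = 0 := by
                rcases mul_eq_zero.mp (by simpa using hal : al * al * (r : ℚ) = 0) with h | h
                · exact h
                · exact absurd h hrq
              exact mul_self_eq_zero.mp h3
            have h4 : phi al (FreeGroup.of 0) = phi al 1 := by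
              simp [phi, hz, U_zero]
            exact absurd (hinj h4) (FreeGroup.of_ne_one 0)
        have e1' : q.1 = q'.1 := by exact_mod_cast e1
        have hq2 : q = q' := Prod.ext e1' e2'
        subst hq2
        rw [Fin.ext hk])
      (by
        rintro ⟨⟨q, hq⟩, k⟩
        right
        simp only [vec]
        have hv : q.2 ≠ 0 := by
          intro h
          exact (hP q hq).2 (h ▸ dvd_zero r)
        have hv' : (q.2 : ℚ) ≠ 0 := by exact_mod_cast hv
        exact div_ne_zero hv' (pow_ne_zero _ hrq))
      (fun p => (⟨lamT p.1.1, Finset.mem_image_of_mem _ p.1.2⟩, p.2))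
      (fun p => (⟨lamU s r p.1.1, Finset.mem_image_of_mem _ p.1.2⟩,
        ⟨(p.2 : ℕ) + redE r p.1.1.1, by
          have := p.2.2
          unfold redE
          split_ifs <;> omega⟩))
      (by
        rintro ⟨⟨q, hq⟩, k⟩ ⟨⟨q', hq'⟩, k'⟩ h
        simp only [Prod.mk.injEq, Subtype.mk.injEq, lamT] at h
        obtain ⟨⟨h1, h2⟩, h3⟩ := h
        subst h3
        rw [← h1] at h2
        have h4 : q.2 ∣ q'.1 - q.1 := Int.ModEq.dvd h2
        obtain ⟨m, hm⟩ := h4
        refine ⟨m, ?_, ?_⟩
        · simp only [vec]
          have : (q'.1 : ℚ) = q.1 + q.2 * m := by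
            have : q'.1 = q.1 + q.2 * m := by linarith
            exact_mod_cast this
          rw [this]
          field_simp
        · simp only [vec]
          rw [h1])
      (by
        rintro ⟨⟨q, hq⟩, k⟩ ⟨⟨q', hq'⟩, k'⟩ h
        simp only [Prod.mk.injEq, Subtype.mk.injEq, lamU, Fin.mk.injEq] at h
        obtain ⟨⟨h1, h2⟩, h3⟩ := h
        simp only
        rw [vec_eq al hr0, vec_eq al hr0, ← h3, ← h1]
        rw [← h1] at h2
        have h4 : s * |redU r q.1| ∣ redW r q'.1 q'.2 - redW r q.1 q.2 :=
          Int.ModEq.dvd h2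
        have h5 : s * redU r q.1 ∣ redW r q'.1 q'.2 - redW r q.1 q.2 := by
          rcases abs_choice (redU r q.1) with h | h
          · rwa [h] at h4
          · rw [h] at h4
            rw [show s * redU r q.1 = -(s * -redU r q.1) by ring]
            exact (neg_dvd).mpr h4
        obtain ⟨m, hm⟩ := h5
        refine ⟨m, rfl, ?_⟩
        simp only
        have hm' : (redW r q'.1 q'.2 : ℚ) = redW r q.1 q.2 + s * redU r q.1 * m := by
          have : redW r q'.1 q'.2 = redW r q.1 q.2 + s * redU r q.1 * m := by linarith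
          exact_mod_cast this
        rw [hm', ← hal]
        field_simp)
    simpa [Fintype.card_prod, Fintype.card_fin, Fintype.card_coe] using this
  by_contra hcon
  push Not at hcon
  have h := main ((P.image (lamU s r)).card + 1)
  generalize (P.image lamT).card = a at *
  generalize (P.image (lamU s r)).card = b at *
  generalize P.card = c at *
  nlinarith

end Pool.Agent.Lib.MP_b4205f_al.H76
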