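import Pool.Agent.Lib.MP_b4205f_al.H76.Crit

/-!
From matrices to vectors: the counting inequality for finite families of nonzero vectors.
-/

namespace Pool.Agent.Lib.MP_b4205f_al.H76

open Matrix Pool.Agent.Lib.MP_b4205f_al.H22

lemma exists_matrix (x y : ℚ) (h : x ≠ 0 ∨ y ≠ 0) :
    ∃ M : SLQ, mat M 0 0 = x ∧ mat M 1 0 = y := by
  by_cases hx : x = 0
  · have hy : y ≠ 0 := by rcases h with h | h
                          · exact absurd hx h
                          · exact h
    refine ⟨⟨!![0, -y⁻¹; y, 0], ?_⟩, ?_, ?_⟩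
    · rw [det_fin_two_of]; field_simp; norm_num
    · simp [mat, hx]
    · simp [mat]
  · refine ⟨⟨!![x, 0; y, x⁻¹], ?_⟩, ?_, ?_⟩
    · rw [det_fin_two_of]; field_simp; norm_num
    · simp [mat]
    · simp [mat]

lemma eq_of_col {M N : SLQ} (h0 : mat M 0 0 = mat N 0 0) (h1 : mat M 1 0 = mat N 1 0) :
    ∃ t : ℚ, N = M * U t := by
  have dM := mat_det M
  have dN := mat_det N
  refine ⟨mat N 0 1 * mat M 1 1 - mat M 0 1 * mat N 1 1, ?_⟩
  apply mat_inj
  rw [mat_mul, mat_U]
  ext i j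
  fin_cases i <;> fin_cases j
  · simp [Matrix.mul_apply, Fin.sum_univ_two, h0]
  · simp [Matrix.mul_apply, Fin.sum_univ_two]
    rw [← h0, ← h1] at dN
    linear_combination (mat M 0 1) * dN - (mat N 0 1) * dM
  · simp [Matrix.mul_apply, Fin.sum_univ_two, h1]
  · simp [Matrix.mul_apply, Fin.sum_univ_two]
    rw [← h0, ← h1] at dN
    linear_combination (mat M 1 1) * dN - (mat N 1 1) * dM

lemma col_mul_U (M : SLQ) (t : ℚ) : mat (M * U t) 0 0 = mat M 0 0 ∧ mat (M * U t) 1 0 = mat M 1 0 := by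
  rw [mat_mul, mat_U]
  constructor <;> simp [Matrix.mul_apply, Fin.sum_univ_two]

lemma col_Uz_mul (al : ℚ) (n : ℤ) (M : SLQ) :
    mat (U al ^ n * M) 0 0 = mat M 0 0 + n * al * mat M 1 0 ∧
      mat (U al ^ n * M) 1 0 = mat M 1 0 := by
  rw [U_zpow, mat_mul, mat_U]
  constructor <;> simp [Matrix.mul_apply, Fin.sum_univ_two]

lemma col_Lz_mul (al : ℚ) (n : ℤ) (M : SLQ) :
    mat (L al ^ n * M) 0 0 = mat M 0 0 ∧
      mat (L al ^ n * M) 1 0 = mat M 1 0 + n * al * mat M 0 0 := by
  rw [L_zpow, mat_mul, mat_L]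
  constructor <;> simp [Matrix.mul_apply, Fin.sum_univ_two, add_comm]

/-- common denominator and bound of a finite family of rationals -/
lemma exists_denom {ι : Type*} [Fintype ι] (κ : ι → ℚ) :
    ∃ D : ℕ, 0 < D ∧ ∀ i, ∃ k : ℤ, κ i = k / D := by
  classical
  refine ⟨∏ i, (κ i).den, Finset.prod_pos (fun i _ => (κ i).pos), fun i => ?_⟩
  have hd : (κ i).den ∣ ∏ i, (κ i).den := Finset.dvd_prod_of_mem _ (Finset.mem_univ i)
  obtain ⟨c, hc⟩ := hd
  refine ⟨(κ i).num * c, ?_⟩
  rw [hc]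
  have h1 : ((κ i).den : ℚ) ≠ 0 := by exact_mod_cast (κ i).pos.ne'
  have hc0 : (c : ℚ) ≠ 0 := by
    intro h
    have h' : c = 0 := by exact_mod_cast h
    rw [h', mul_zero] at hc
    exact (Finset.prod_pos (fun i _ => (κ i).pos) : 0 < ∏ i, (κ i).den).ne' hc
  have h2 : κ i = (κ i).num / (κ i).den := (Rat.num_div_den (κ i)).symm
  push_cast
  rw [mul_div_mul_right _ _ hc0]
  exact h2

lemma exists_denom_bound {ι : Type*} [Fintype ι] (κ κ' : ι → ℚ) :
    ∃ (D K : ℕ) (k k' : ι → ℤ), 0 < D ∧ (∀ i, κ i = k i / D) ∧ (∀ i, κ' i = k' i / D) ∧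
      (∀ i, |k i| ≤ K) ∧ (∀ i, |k' i| ≤ K) := by
  classical
  obtain ⟨D, hD, h⟩ := exists_denom (Sum.elim κ κ')
  choose k hk using h
  refine ⟨D, ∑ i, (k i).natAbs, fun i => k (Sum.inl i), fun i => k (Sum.inr i), hD,
    fun i => hk (Sum.inl i), fun i => hk (Sum.inr i), fun i => ?_, fun i => ?_⟩
  · rw [Int.abs_eq_natAbs]
    exact_mod_cast Finset.single_le_sum (f := fun i => (k i).natAbs) (fun _ _ => Nat.zero_le _)
      (Finset.mem_univ (Sum.inl i))
  · rw [Int.abs_eq_natAbs]
    exact_mod_cast Finset.single_le_sum (f := fun i => (k i).natAbs) (fun _ _ => Nat.zero_le _)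
      (Finset.mem_univ (Sum.inr i))

/-- The counting inequality for vectors. -/
theorem card_le_vectors {al : ℚ} (hinj : Function.Injective (phi al))
    {ι α β : Type*} [Fintype ι] [Fintype α] [Fintype β]
    (v : ι → ℚ × ℚ) (hv : Function.Injective v) (hne : ∀ i, (v i).1 ≠ 0 ∨ (v i).2 ≠ 0)
    (lT : ι → α) (lU : ι → β)
    (hT : ∀ i j, lT i = lT j → ∃ n : ℤ, (v j).1 = (v i).1 + n * al * (v i).2 ∧
      (v j).2 = (v i).2)
    (hU : ∀ i j, lU i = lU j → ∃ n : ℤ, (v j).1 = (v i).1 ∧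
      (v j).2 = (v i).2 + n * al * (v i).1) :
    Fintype.card ι ≤ Fintype.card α + Fintype.card β := by
  classical
  choose M hM0 hM1 using fun i => exists_matrix (v i).1 (v i).2 (hne i)
  -- base points of the classes
  have hbT : ∀ i : ι, ∃ b : ι, lT b = lT i := fun i => ⟨i, rfl⟩
  let bT : α → ι → ι := fun a i => if h : ∃ b : ι, lT b = a then h.choose else i
  have hbT' : ∀ i, lT (bT (lT i) i) = lT i := by
    intro i
    have h : ∃ b : ι, lT b = lT i := ⟨i, rfl⟩
    simp only [bT, dif_pos h]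
    exact h.choose_spec
  have hbTe : ∀ i j, lT i = lT j → bT (lT i) i = bT (lT j) j := by
    intro i j hij
    have h : ∃ b : ι, lT b = lT i := ⟨i, rfl⟩
    have h' : ∃ b : ι, lT b = lT j := ⟨j, rfl⟩
    simp only [bT, dif_pos h, dif_pos h']
    congr 1
    simp [hij]
  let bU : β → ι → ι := fun a i => if h : ∃ b : ι, lU b = a then h.choose else i
  have hbU' : ∀ i, lU (bU (lU i) i) = lU i := by
    intro i
    have h : ∃ b : ι, lU b = lU i := ⟨i, rfl⟩
    simp only [bU, dif_pos h]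
    exact h.choose_spec
  have hbUe : ∀ i j, lU i = lU j → bU (lU i) i = bU (lU j) j := by
    intro i j hij
    have h : ∃ b : ι, lU b = lU i := ⟨i, rfl⟩
    have h' : ∃ b : ι, lU b = lU j := ⟨j, rfl⟩
    simp only [bU, dif_pos h, dif_pos h']
    congr 1
    simp [hij]
  have eT : ∀ i, ∃ (n : ℤ) (t : ℚ), M i = U al ^ n * M (bT (lT i) i) * U t := by
    intro i
    obtain ⟨n, h1, h2⟩ := hT _ _ (hbT' i)
    obtain ⟨c1, c2⟩ := col_Uz_mul al n (M (bT (lT i) i))
    obtain ⟨t, ht⟩ := eq_of_col (M := U al ^ n * M (bT (lT i) i)) (N := M i)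
      (by rw [c1, hM0, hM1, hM0, h1]) (by rw [c2, hM1, hM1, h2])
    exact ⟨n, t, ht⟩
  have eU : ∀ i, ∃ (n : ℤ) (t : ℚ), M i = L al ^ n * M (bU (lU i) i) * U t := by
    intro i
    obtain ⟨n, h1, h2⟩ := hU _ _ (hbU' i)
    obtain ⟨c1, c2⟩ := col_Lz_mul al n (M (bU (lU i) i))
    obtain ⟨t, ht⟩ := eq_of_col (M := L al ^ n * M (bU (lU i) i)) (N := M i)
      (by rw [c1, hM0, hM0, h1]) (by rw [c2, hM1, hM1, hM0, h2])
    exact ⟨n, t, ht⟩
  choose nT κT hκT using eT
  choose nU κU hκU using eU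
  obtain ⟨D, K, kT, kU, hD, hkT, hkU, hKT, hKU⟩ := exists_denom_bound κT κU
  have hDq : (D : ℚ) ≠ 0 := by exact_mod_cast hD.ne'
  -- the inequality for every N
  have main : ∀ N : ℕ, Fintype.card ι * N ≤
      Fintype.card α * (N + 2 * K + 1) + Fintype.card β * (N + 2 * K + 1) := by
    intro N
    have hbd : ∀ (k : ℤ) (j : Fin N), |k| ≤ K → (k + j + K).toNat < N + 2 * K + 1 := by
      intro k j hk
      have h1 := abs_le.mp hk
      have h2 : ((j : ℕ) : ℤ) < N := by exact_mod_cast j.2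
      have h3 : (0 : ℤ) ≤ (j : ℕ) := by positivity
      omega
    have hpos : ∀ (k : ℤ) (j : Fin N), |k| ≤ K → 0 ≤ k + ((j : ℕ) : ℤ) + K := by
      intro k j hk
      have h1 := abs_le.mp hk
      have h3 : (0 : ℤ) ≤ (j : ℕ) := by positivity
      omega
    have := card_le_matrices hinj (ι := ι × Fin N) (α := α × Fin (N + 2 * K + 1))
      (β := β × Fin (N + 2 * K + 1))
      (fun p => M p.1 * U ((p.2 : ℕ) / D))
      (by
        rintro ⟨i, j⟩ ⟨i', j'⟩ h
        simp only at h
        have hi : i = i' := by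
          apply hv
          have c := congrArg (fun A : SLQ => mat A 0 0) h
          have c' := congrArg (fun A : SLQ => mat A 1 0) h
          simp only [(col_mul_U _ _).1, (col_mul_U _ _).2, hM0, hM1] at c c'
          exact Prod.ext c c'
        subst hi
        have h2 := mul_left_cancel h
        have h3 := congrArg (fun A : SLQ => mat A 0 1) h2
        simp [mat_U] at h3
        have h4 : ((j : ℕ) : ℚ) = (j' : ℕ) := by
          field_simp at h3
          exact h3
        have h5 : (j : ℕ) = (j' : ℕ) := by exact_mod_cast h4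
        rw [Fin.ext h5])
      (fun p => (lT p.1, ⟨(kT p.1 + ((p.2 : ℕ) : ℤ) + K).toNat, hbd _ _ (hKT p.1)⟩))
      (fun p => (lU p.1, ⟨(kU p.1 + ((p.2 : ℕ) : ℤ) + K).toNat, hbd _ _ (hKU p.1)⟩))
      (by
        rintro ⟨i, j⟩ ⟨i', j'⟩ h
        simp only [Prod.mk.injEq, Fin.mk.injEq] at h
        obtain ⟨h1, h2⟩ := h
        have h3 : kT i + ((j : ℕ) : ℤ) = kT i' + ((j' : ℕ) : ℤ) := by
          have a1 := hpos _ j (hKT i)
          have a2 := hpos _ j' (hKT i')
          omega
        refine ⟨nT i' - nT i, ?_⟩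
        simp only
        have hb := hbTe _ _ h1
        rw [hκT i', hκT i, ← hb, hkT, hkT]
        have h4 : (kT i' : ℚ) / D + ((j' : ℕ) : ℚ) / D = (kT i : ℚ) / D + ((j : ℕ) : ℚ) / D := by
          rw [← add_div, ← add_div]
          congr 1
          exact_mod_cast h3.symm
        rw [mul_assoc _ (U _) (U _), U_mul, h4, ← U_mul]
        have e : U al ^ nT i' = U al ^ (nT i' - nT i) * U al ^ nT i := by
          rw [← _root_.zpow_add]; congr 1; ring
        rw [e]
        simp only [mul_assoc])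
      (by
        rintro ⟨i, j⟩ ⟨i', j'⟩ h
        simp only [Prod.mk.injEq, Fin.mk.injEq] at h
        obtain ⟨h1, h2⟩ := h
        have h3 : kU i + ((j : ℕ) : ℤ) = kU i' + ((j' : ℕ) : ℤ) := by
          have a1 := hpos _ j (hKU i)
          have a2 := hpos _ j' (hKU i')
          omega
        refine ⟨nU i' - nU i, ?_⟩
        simp only
        have hb := hbUe _ _ h1
        rw [hκU i', hκU i, ← hb, hkU, hkU]
        have h4 : (kU i' : ℚ) / D + ((j' : ℕ) : ℚ) / D = (kU i : ℚ) / D + ((j : ℕ) : ℚ) / D := by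
          rw [← add_div, ← add_div]
          congr 1
          exact_mod_cast h3.symm
        rw [mul_assoc _ (U _) (U _), U_mul, h4, ← U_mul]
        have e : L al ^ nU i' = L al ^ (nU i' - nU i) * L al ^ nU i := by
          rw [← _root_.zpow_add]; congr 1; ring
        rw [e]
        simp only [mul_assoc])
    simpa [Fintype.card_prod, Fintype.card_fin] using this
  by_contra hcon
  push Not at hcon
  have h := main ((Fintype.card α + Fintype.card β) * (2 * K + 1) + 1)
  have h2 : (Fintype.card α + Fintype.card β + 1) *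
      ((Fintype.card α + Fintype.card β) * (2 * K + 1) + 1) ≤
      Fintype.card ι * ((Fintype.card α + Fintype.card β) * (2 * K + 1) + 1) :=
    Nat.mul_le_mul_right _ hcon
  generalize Fintype.card α = a at *
  generalize Fintype.card β = b at *
  generalize Fintype.card ι = c at *
  have h3 := h2.trans h
  nlinarith

end Pool.Agent.Lib.MP_b4205f_al.H76
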